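import Pool.Agent.Helper81.QF.Szego
import Pool.Agent.Helper29.QF.Speed
import Pool.Agent.Helper29.QF.Cut
import Pool.Agent.Helper29.QF.Cut2
import Pool.Agent.Helper84.Lam.Tools61b

/-!
# MP_78803a, full answer: definitions and the two states

`B = b/d` (values in the disc), `λ = lamD`, `Y = YD` (the height), `w = |d|^2 - |b|^2 = dl b d` on the circle,
`thD = λ'/(λ(1-λ))` (zero-free), `hD = 1 + |λ| + |1-λ|`, `ee l = |1-λ| hD^l` (`= e^ψ`), `Ps l = 1 - λ^(l+1)`,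
`jj l b d = (thD(B)/d^2)^l / (1 - λ(B))`.

RUN keeps `P / jj`, EVENT keeps `f jj`. On the circle `|jj| = (2 π Y / w)^l / ee`.
-/

set_option autoImplicit false

namespace Pool.Agent.Helper81.QF

open Polynomial Metric Complex
open Pool.Agent.Helper84.Lam Pool.Agent.Helper29.QF

/-- `B = b/d` -/
noncomputable def Bq (b d : ℂ[X]) (z : ℂ) : ℂ := b.eval z / d.eval z

/- `thD = λ' / (λ (1 - λ))` is helper84's (Tools61). -/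
export Pool.Agent.Helper84.Lam (thD)

/-- `1 + |λ| + |1 - λ|` -/
noncomputable def hD (v : ℂ) : ℝ := 1 + ‖lamD v‖ + ‖1 - lamD v‖

/-- `e^ψ = |1 - λ| (1 + |λ| + |1 - λ|)^l` -/
noncomputable def ee (l : ℕ) (v : ℂ) : ℝ := ‖1 - lamD v‖ * hD v ^ l

/-- `Ψ = 1 - λ^(l+1)` -/
noncomputable def Ps (l : ℕ) (v : ℂ) : ℂ := 1 - lamD v ^ (l + 1)

/-- `1 + λ + ... + λ^l` -/
noncomputable def Sg (l : ℕ) (v : ℂ) : ℂ := ∑ i ∈ Finset.range (l + 1), lamD v ^ i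

/-- the multiplier `(thD(B)/d^2)^l / (1 - λ(B))` -/
noncomputable def jj (l : ℕ) (b d : ℂ[X]) (z : ℂ) : ℂ :=
  (thD (Bq b d z) / d.eval z ^ 2) ^ l / (1 - lamD (Bq b d z))

/-- `3 log(1+|λ|+|1-λ|) - log|λ| - log|1-λ|` -/
noncomputable def Hh (v : ℂ) : ℝ := 3 * Real.log (hD v) - Real.log ‖lamD v‖ - Real.log ‖1 - lamD v‖

/-- value of `P` at `0` -/
noncomputable def Pst (l : ℕ) : ℂ := 1 / (1 - (1 / 2) ^ (l + 1))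

/-- `τ = mean of log (1/w)` -/
noncomputable def tau (b d : ℂ[X]) : ℝ := Real.circleAverage (fun z => -Real.log (dl b d z)) 0 1

/-- `Re Ξ = log |f jj|` -/
noncomputable def xi (l : ℕ) (b d : ℂ[X]) (f : ℂ → ℂ) (z : ℂ) : ℝ := Real.log ‖f z * jj l b d z‖

/-- What both states have in common; `X` bounds all frequencies. -/
structure Core (l : ℕ) (X : ℝ) (m : ℕ) (b d : ℂ[X]) (f P : ℂ → ℂ) : Prop where
  pair : Pair m b d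
  b0 : b.eval 0 = 0
  deg : (m : ℝ) ≤ X
  speed : ∀ z : ℂ, ‖z‖ = 1 → ‖nN b d z‖ + ‖vV b d z‖ ≤ X * dl b d z
  wup : ∀ z : ℂ, ‖z‖ = 1 → dl b d z ≤ 1
  anf : AnalyticOnNhd ℂ f (closedBall 0 1)
  anP : AnalyticOnNhd ℂ P (closedBall 0 1)
  fne : ∀ z : ℂ, ‖z‖ ≤ 1 → f z ≠ 0
  eq : ∀ z : ℂ, ‖z‖ ≤ 1 → iteratedDeriv l f z = P z * Ps l (Bq b d z)
  fder : ∀ i ≤ l, ∀ z : ℂ, ‖z‖ = 1 → ‖iteratedDeriv i f z‖ ≤ X ^ i * ‖f z‖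
  f0 : f 0 = 1
  P0 : P 0 = Pst l

/-- **State** at the beginning of a cycle, label `y`, `T = y^16`, `X = exp T`. -/
structure St (l : ℕ) (C₃ y : ℝ) (m : ℕ) (b d : ℂ[X]) (f P : ℂ → ℂ) : Prop where
  core : Core l (Real.exp (y ^ 16)) m b d f P
  wlow : ∀ z : ℂ, ‖z‖ = 1 → 1 ≤ Real.exp (y ^ 16) * dl b d z
  Ysup : ∀ z : ℂ, ‖z‖ = 1 → YD (Bq b d z) ≤ y ^ 128
  V : ∀ z : ℂ, ‖z‖ = 1 → ‖P z‖ * ee l (Bq b d z) ≤ Real.exp (y ^ 16) ^ l * ‖f z‖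
  flog : ∀ z : ℂ, ‖z‖ = 1 → |Real.log ‖f z‖| ≤ y ^ 160
  Elog : Real.circleAverage (fun z => Real.log (YD (Bq b d z))) 0 1 ≤ C₃
  xi2 : Real.circleAverage (fun z => xi l b d f z ^ 2) 0 1 ≤ y ^ 30

/-- **State** after the RUN phase (parameter `y` of the cycle, `T = y^16`, `X` bounds the frequencies). -/
structure Mid (l : ℕ) (y X : ℝ) (m : ℕ) (b d : ℂ[X]) (f P : ℂ → ℂ) : Prop where
  core : Core l X m b d f P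
  Xlow : Real.exp (y ^ 16) ≤ X
  Xup : X ≤ Real.exp (2 * y ^ 16)
  wlow : ∀ z : ℂ, ‖z‖ = 1 → 1 ≤ X * dl b d z
  Ysup : ∀ z : ℂ, ‖z‖ = 1 → YD (Bq b d z) ≤ 2 * y ^ 128
  V : ∀ z : ℂ, ‖z‖ = 1 → ‖P z‖ * ee l (Bq b d z) ≤ X ^ l * ‖f z‖
  flog : ∀ z : ℂ, ‖z‖ = 1 → |Real.log ‖f z‖| ≤ 2 * y ^ 160

/-- Closeness of two states inside the disc: all differences are divisible by `z^K`, `K ≥ X`;
`exp A` bounds the quotients. -/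
def Close (A X : ℝ) (b d : ℂ[X]) (f P : ℂ → ℂ) (b' d' : ℂ[X]) (f' P' : ℂ → ℂ) : Prop :=
  ∃ K : ℕ, X ≤ K ∧ ∀ z : ℂ, ‖z‖ ≤ 1 →
    ‖Bq b' d' z - Bq b d z‖ ≤ Real.exp A * ‖z‖ ^ K ∧
    ‖f' z - f z‖ ≤ Real.exp A * ‖z‖ ^ K * ‖f z‖ ∧
    ‖P' z - P z‖ ≤ Real.exp A * ‖z‖ ^ K

end Pool.Agent.Helper81.QF
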