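import Pool.Agent.Helper81.QF.Defs

/-!
# MP_78803a, full answer: the three main statements (as propositions)

`RunGoal`, `EventGoal`: what the RUN phase and the EVENT deliver. `CycleGoal` follows from both (`Cycle.lean`).
-/

set_option autoImplicit false

namespace Pool.Agent.Helper81.QF

open Polynomial Metric Complex
open Pool.Agent.Helper84.Lam Pool.Agent.Helper29.QF

/-- RUN phase: `⌈y^3⌉` steps. -/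
def RunGoal (l : ℕ) (C₃ : ℝ) : Prop :=
  ∃ y₀ C : ℝ, 1 ≤ y₀ ∧ 0 ≤ C ∧ ∀ y : ℝ, y₀ ≤ y → ∀ (m : ℕ) (b d : ℂ[X]) (f P : ℂ → ℂ),
    St l C₃ y m b d f P → ∃ (X : ℝ) (m' : ℕ) (b' d' : ℂ[X]) (f' P' : ℂ → ℂ),
      Mid l y X m' b' d' f' P' ∧
      y ^ 16 + y ^ 3 ≤ Real.log X ∧ Real.log X ≤ y ^ 16 + y ^ 4 ∧
      (∀ z : ℂ, ‖z‖ = 1 → YD (Bq b' d' z) ≤ YD (Bq b d z) + 1 ∨ YD (Bq b' d' z) ≤ y ^ 112) ∧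
      (∀ z : ℂ, ‖z‖ = 1 → |Real.log ‖f' z‖ - Real.log ‖f z‖| ≤ 1) ∧
      (1 - C / Real.sqrt (Real.log y)) * (Real.log X - y ^ 16) ≤ tau b' d' - tau b d ∧
      Real.circleAverage (fun z => xi l b' d' f' z ^ 2) 0 1 ≤
        Real.circleAverage (fun z => xi l b d f z ^ 2) 0 1 + y ^ 16 ∧
      Close (y ^ 300) (Real.exp (y ^ 16) * y ^ 720) b d f P b' d' f' P'

/-- EVENT: one step, all three cusps. -/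
def EventGoal (l : ℕ) (C₃ : ℝ) : Prop :=
  ∃ y₀ : ℝ, 1 ≤ y₀ ∧ ∀ y : ℝ, y₀ ≤ y → ∀ (X : ℝ) (m : ℕ) (b d : ℂ[X]) (f P : ℂ → ℂ),
    Mid l y X m b d f P → ∃ (m' : ℕ) (b' d' : ℂ[X]) (f' P' : ℂ → ℂ),
      Core l (X * y ^ 820) m' b' d' f' P' ∧
      (∀ z : ℂ, ‖z‖ = 1 → dl b d z ≤ y ^ 50 * dl b' d' z) ∧
      (∀ z : ℂ, ‖z‖ = 1 → dl b' d' z ≤ dl b d z) ∧
      (∀ z : ℂ, ‖z‖ = 1 → YD (Bq b' d' z) ≤ YD (Bq b d z) + 1 ∨ YD (Bq b' d' z) ≤ y ^ 112) ∧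
      (∀ z : ℂ, ‖z‖ = 1 → ‖P' z‖ * ee l (Bq b' d' z) ≤ (X * y ^ 820) ^ l * ‖f' z‖) ∧
      (∀ z : ℂ, ‖z‖ = 1 → |Real.log ‖f' z‖ - Real.log ‖f z‖| ≤ y ^ 130) ∧
      Real.circleAverage (fun z => Real.log (YD (Bq b' d' z))) 0 1 ≤ C₃ ∧
      (∀ z : ℂ, ‖z‖ = 1 → |xi l b' d' f' z - xi l b d f z| ≤ 1) ∧
      Close (y ^ 300) X b d f P b' d' f' P'

/-- One cycle. -/
def CycleGoal (l : ℕ) (C₃ : ℝ) : Prop :=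
  ∃ y₀ C : ℝ, 1 ≤ y₀ ∧ 0 ≤ C ∧ ∀ y : ℝ, y₀ ≤ y → ∀ (m : ℕ) (b d : ℂ[X]) (f P : ℂ → ℂ),
    St l C₃ y m b d f P → ∃ (y' : ℝ) (m' : ℕ) (b' d' : ℂ[X]) (f' P' : ℂ → ℂ),
      St l C₃ y' m' b' d' f' P' ∧ y ≤ y' ∧
      y ^ 16 + y ^ 3 ≤ y' ^ 16 ∧ y' ^ 16 ≤ y ^ 16 + 2 * y ^ 4 ∧
      (1 - C / Real.sqrt (Real.log y)) * (y' ^ 16 - y ^ 16) ≤ tau b' d' - tau b d ∧
      Close (y ^ 310) (Real.exp (y ^ 16) * y ^ 720) b d f P b' d' f' P'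

end Pool.Agent.Helper81.QF
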