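import Pool.Agent.Helper81.QF.Goals
import Pool.Agent.Helper84.PD.Mean

/-!
# MP_78803a, full answer: one cycle from the RUN phase and the EVENT
-/

set_option autoImplicit false

namespace Pool.Agent.Helper81.QF

open Polynomial Metric Complex
open Pool.Agent.Helper84.Lam Pool.Agent.Helper29.QF Pool.Agent.Helper84.PD

/-- composition of two closeness relations -/
theorem Close.trans {A X X' : ℝ} {b d b₁ d₁ b₂ d₂ : ℂ[X]} {f P f₁ P₁ f₂ P₂ : ℂ → ℂ} (hA : 0 ≤ A)
    (hX : X ≤ X') (h₁ : Close A X b d f P b₁ d₁ f₁ P₁) (h₂ : Close A X' b₁ d₁ f₁ P₁ b₂ d₂ f₂ P₂) :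
    Close (3 * A + 2) X b d f P b₂ d₂ f₂ P₂ := by
  obtain ⟨K₁, hK₁, c₁⟩ := h₁
  obtain ⟨K₂, hK₂, c₂⟩ := h₂
  refine ⟨min K₁ K₂, ?_, fun z hz => ?_⟩
  · rw [Nat.cast_min]
    exact le_min hK₁ (hX.trans hK₂)
  obtain ⟨p1, p2, p3⟩ := c₁ z hz
  obtain ⟨q1, q2, q3⟩ := c₂ z hz
  have hz0 := norm_nonneg z
  have e1 : ‖z‖ ^ K₁ ≤ ‖z‖ ^ min K₁ K₂ := pow_le_pow_of_le_one hz0 hz (min_le_left _ _)
  have e2 : ‖z‖ ^ K₂ ≤ ‖z‖ ^ min K₁ K₂ := pow_le_pow_of_le_one hz0 hz (min_le_right _ _)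
  set s := ‖z‖ ^ min K₁ K₂ with hs
  have hs0 : 0 ≤ s := by positivity
  have hs1 : s ≤ 1 := pow_le_one₀ hz0 hz
  set E := Real.exp A with hE
  have hE1 : 1 ≤ E := Real.one_le_exp hA
  have h3 : Real.exp (3 * A + 2) = E ^ 3 * Real.exp 2 := by
    rw [hE, ← Real.exp_nat_mul, ← Real.exp_add]
    norm_num
  have h4 : 3 ≤ Real.exp 2 := by
    have := Real.add_one_le_exp (2 : ℝ)
    linarith
  have hE2 : E ≤ E ^ 2 := by nlinarith
  have hE3 : E ^ 2 ≤ E ^ 3 := by nlinarith [mul_nonneg (by linarith : 0 ≤ E) (by linarith : 0 ≤ E - 1)]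
  have hbig : 2 * E + E ^ 2 ≤ Real.exp (3 * A + 2) := by
    rw [h3]
    nlinarith
  have a1 : E * ‖z‖ ^ K₁ ≤ E * s := mul_le_mul_of_nonneg_left e1 (by linarith)
  have a2 : E * ‖z‖ ^ K₂ ≤ E * s := mul_le_mul_of_nonneg_left e2 (by linarith)
  have hE22 : 2 * E ≤ Real.exp (3 * A + 2) := by nlinarith [sq_nonneg E]
  refine ⟨?_, ?_, ?_⟩
  · calc ‖Bq b₂ d₂ z - Bq b d z‖ = ‖(Bq b₂ d₂ z - Bq b₁ d₁ z) + (Bq b₁ d₁ z - Bq b d z)‖ := by
          congr 1; ring
      _ ≤ _ := norm_add_le _ _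
      _ ≤ E * s + E * s := add_le_add (q1.trans a2) (p1.trans a1)
      _ = (2 * E) * s := by ring
      _ ≤ _ := mul_le_mul_of_nonneg_right hE22 hs0
  · have hf := norm_nonneg (f z)
    have b1 : ‖f₁ z - f z‖ ≤ E * s * ‖f z‖ := p2.trans (mul_le_mul_of_nonneg_right a1 hf)
    have b2 : ‖f₁ z‖ ≤ (1 + E) * ‖f z‖ := by
      have : ‖f₁ z‖ ≤ ‖f z‖ + ‖f₁ z - f z‖ := by
        have := norm_add_le (f z) (f₁ z - f z)
        simpa using this
      have h5 : E * s * ‖f z‖ ≤ E * ‖f z‖ := by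
        have : E * s ≤ E := by nlinarith
        exact mul_le_mul_of_nonneg_right this hf
      linarith
    have b3 : ‖f₂ z - f₁ z‖ ≤ E * s * ((1 + E) * ‖f z‖) :=
      q2.trans (mul_le_mul a2 b2 (norm_nonneg _) (by positivity))
    calc ‖f₂ z - f z‖ = ‖(f₂ z - f₁ z) + (f₁ z - f z)‖ := by congr 1; ring
      _ ≤ _ := norm_add_le _ _
      _ ≤ E * s * ((1 + E) * ‖f z‖) + E * s * ‖f z‖ := add_le_add b3 b1
      _ = (2 * E + E ^ 2) * (s * ‖f z‖) := by ring
      _ ≤ Real.exp (3 * A + 2) * (s * ‖f z‖) := mul_le_mul_of_nonneg_right hbig (by positivity)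
      _ = _ := by ring
  · calc ‖P₂ z - P z‖ = ‖(P₂ z - P₁ z) + (P₁ z - P z)‖ := by
          congr 1; ring
      _ ≤ _ := norm_add_le _ _
      _ ≤ E * s + E * s := add_le_add (q3.trans a2) (p3.trans a1)
      _ = (2 * E) * s := by ring
      _ ≤ _ := mul_le_mul_of_nonneg_right hE22 hs0

theorem root_pow {y y' : ℝ} (hy : 1 ≤ y) (hy' : 0 ≤ y') (h : y ^ 16 + y ^ 3 ≤ y' ^ 16) {n : ℕ}
    (hn : 16 ≤ n) : y ^ n + (n : ℝ) / 16 * y ^ (n - 13) ≤ y' ^ n := by
  have hy0 : 0 < y := by linarith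
  set p : ℝ := (n : ℝ) / 16 with hp
  have hp1 : 1 ≤ p := by
    rw [hp, le_div_iff₀ (by norm_num)]
    have : (16 : ℝ) ≤ n := by exact_mod_cast hn
    linarith
  have key : ∀ t : ℝ, 0 ≤ t → (t ^ 16) ^ p = t ^ n := by
    intro t ht
    rw [← Real.rpow_natCast t 16, ← Real.rpow_mul ht, hp, ← Real.rpow_natCast t n]
    congr 1
    push_cast
    ring
  set s : ℝ := 1 / y ^ 13 with hs
  have hs0 : 0 ≤ s := by positivity
  have hfac : y ^ 16 + y ^ 3 = y ^ 16 * (1 + s) := by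
    rw [hs]
    have : y ^ 16 = y ^ 3 * y ^ 13 := by rw [← pow_add]
    field_simp
  have hB := one_add_mul_self_le_rpow_one_add (s := s) (by linarith) hp1
  have e1 : (y ^ 16 + y ^ 3) ^ p ≤ (y' ^ 16) ^ p :=
    Real.rpow_le_rpow (by positivity) h (by linarith)
  rw [hfac, Real.mul_rpow (by positivity) (by linarith), key y hy0.le, key y' hy'] at e1
  have e2 : y ^ n * (1 + p * s) ≤ y ^ n * (1 + s) ^ p :=
    mul_le_mul_of_nonneg_left hB (by positivity)
  have e3 : y ^ n * s = y ^ (n - 13) := by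
    have : y ^ n = y ^ (n - 13) * y ^ 13 := by rw [← pow_add]; congr 1; omega
    rw [this, hs]
    field_simp
  calc y ^ n + p * y ^ (n - 13) = y ^ n * (1 + p * s) := by rw [← e3]; ring
    _ ≤ _ := e2.trans e1

theorem root_lower {y y' : ℝ} (hy : 1 ≤ y) (hy' : 0 ≤ y') (h : y ^ 16 + y ^ 3 ≤ y' ^ 16) :
    y ^ 30 + y ^ 17 ≤ y' ^ 30 ∧ y ^ 128 + 8 * y ^ 115 ≤ y' ^ 128 ∧
      y ^ 160 + 10 * y ^ 147 ≤ y' ^ 160 ∧ y ≤ y' := by
  have h1 := root_pow hy hy' h (n := 30) (by norm_num)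
  have h2 := root_pow hy hy' h (n := 128) (by norm_num)
  have h3 := root_pow hy hy' h (n := 160) (by norm_num)
  norm_num at h1 h2 h3
  have p17 : 0 < y ^ 17 := by positivity
  refine ⟨by linarith, by linarith, by linarith, ?_⟩
  have h4 : y ^ 16 ≤ y' ^ 16 := by
    have : 0 ≤ y ^ 3 := by positivity
    linarith
  exact (pow_le_pow_iff_left₀ (by linarith) hy' (by norm_num)).1 h4


theorem Close.mono {A A' X : ℝ} {b d b' d' : ℂ[X]} {f P f' P' : ℂ → ℂ} (hA : A ≤ A')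
    (h : Close A X b d f P b' d' f' P') : Close A' X b d f P b' d' f' P' := by
  obtain ⟨K, hK, c⟩ := h
  have hE : Real.exp A ≤ Real.exp A' := Real.exp_le_exp.2 hA
  refine ⟨K, hK, fun z hz => ?_⟩
  obtain ⟨p1, p2, p3⟩ := c z hz
  have e1 : Real.exp A * ‖z‖ ^ K ≤ Real.exp A' * ‖z‖ ^ K :=
    mul_le_mul_of_nonneg_right hE (by positivity)
  exact ⟨p1.trans e1, p2.trans (mul_le_mul_of_nonneg_right e1 (norm_nonneg _)), p3.trans e1⟩

/-- the mean of the square after a bounded change -/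
theorem avg_sq_add {u v : ℂ → ℝ} (hu : ContinuousOn u (sphere 0 1)) (hv : ContinuousOn v (sphere 0 1))
    (h : ∀ z : ℂ, ‖z‖ = 1 → |v z - u z| ≤ 1) {e : ℝ} (he : 0 < e) :
    Real.circleAverage (fun z => v z ^ 2) 0 1 ≤
      (1 + e) * Real.circleAverage (fun z => u z ^ 2) 0 1 + (1 + 1 / e) := by
  have h1 : Real.circleAverage (fun z => v z ^ 2) 0 1 ≤
      Real.circleAverage (fun z => (1 + e) * u z ^ 2 + (1 + 1 / e)) 0 1 := by
    refine avg_mono (hv.pow 2) (((hu.pow 2).const_smul (1 + e)).add continuousOn_const)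
      (fun z hz => ?_)
    have h2 := abs_le.1 (h z hz)
    have h3 : v z = u z + (v z - u z) := by ring
    set t := v z - u z with ht
    have h4 : t ^ 2 ≤ 1 := by nlinarith [h2.1, h2.2]
    have h5 : 2 * (u z * t) ≤ e * u z ^ 2 + 1 / e * t ^ 2 := by
      have h6 : 0 ≤ 1 / e * (e * u z - t) ^ 2 := by positivity
      have h7 : 1 / e * (e * u z - t) ^ 2 = e * u z ^ 2 - 2 * (u z * t) + 1 / e * t ^ 2 := by
        field_simp
        ring
      linarith
    have h8 : 1 / e * t ^ 2 ≤ 1 / e := by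
      have : 0 ≤ 1 / e := by positivity
      nlinarith
    rw [h3]
    nlinarith
  have h2 : Real.circleAverage (fun z => (1 + e) * u z ^ 2 + (1 + 1 / e)) 0 1 =
      (1 + e) * Real.circleAverage (fun z => u z ^ 2) 0 1 + (1 + 1 / e) := by
    have c1 : CircleIntegrable (fun z => (1 + e) • u z ^ 2) 0 1 :=
      ci' ((hu.pow 2).const_smul (1 + e))
    have c2 : CircleIntegrable (fun _ : ℂ => (1 + 1 / e)) 0 1 := ci' continuousOn_const
    have h3 := Real.circleAverage_add c1 c2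
    have h4 := Real.circleAverage_smul (a := 1 + e) (f := fun z => u z ^ 2) (c := 0) (R := 1)
    have h5 : (fun z => (1 + e) * u z ^ 2 + (1 + 1 / e)) =
        (fun z => (1 + e) • u z ^ 2) + fun _ : ℂ => (1 + 1 / e) := rfl
    rw [h5, h3, Real.circleAverage_const]
    congr 1
  linarith

theorem cycle {l : ℕ} {C₃ : ℝ} (hR : RunGoal l C₃) (hE : EventGoal l C₃) : CycleGoal l C₃ := by
  obtain ⟨y₁, C, hy₁, hC, hR⟩ := hR
  obtain ⟨y₂, hy₂, hE⟩ := hE
  refine ⟨max (max y₁ y₂) 1000, C + 1, le_max_of_le_right (by norm_num), by linarith, ?_⟩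
  intro y hy m b d f P hSt
  have hyy₁ : y₁ ≤ y := (le_max_left _ _).trans ((le_max_left _ _).trans hy)
  have hyy₂ : y₂ ≤ y := (le_max_right _ _).trans ((le_max_left _ _).trans hy)
  have hyK : 1000 ≤ y := (le_max_right _ _).trans hy
  have hy1 : 1 ≤ y := by linarith
  have hy0 : 0 < y := by linarith
  obtain ⟨X, m₁, b₁, d₁, f₁, P₁, hM, hXlo, hXhi, hY₁, hf₁, hτ₁, hξ₁, hC₁⟩ := hR y hyy₁ m b d f P hSt
  obtain ⟨m', b', d', f', P', hc', hw1, hw2, hY', hV', hf', hE', hξ', hC'⟩ :=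
    hE y hyy₂ X m₁ b₁ d₁ f₁ P₁ hM
  have hX0 : 0 < X := (Real.exp_pos _).trans_le hM.Xlow
  have hlogy : 1 ≤ Real.log y := by
    rw [Real.le_log_iff_exp_le hy0]
    have := Real.exp_one_lt_d9
    linarith
  have hlogy' : Real.log y ≤ y := by
    have := Real.log_le_sub_one_of_pos hy0
    linarith
  have hL0 : 0 ≤ Real.log X + 820 * Real.log y := by
    have : 0 ≤ y ^ 16 + y ^ 3 := by positivity
    linarith
  set y' : ℝ := (Real.log X + 820 * Real.log y) ^ ((1 : ℝ) / 16) with hy'def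
  have hy'0 : 0 ≤ y' := Real.rpow_nonneg hL0 _
  have hy'16 : y' ^ 16 = Real.log X + 820 * Real.log y := by
    rw [hy'def, ← Real.rpow_natCast, ← Real.rpow_mul hL0]
    norm_num
  have hexp : Real.exp (y' ^ 16) = X * y ^ 820 := by
    rw [hy'16, Real.exp_add, Real.exp_log hX0]
    congr 1
    rw [show (820 : ℝ) * Real.log y = ((820 : ℕ) : ℝ) * Real.log y by norm_num, Real.exp_nat_mul,
      Real.exp_log hy0]
  have hlow : y ^ 16 + y ^ 3 ≤ y' ^ 16 := by
    rw [hy'16]; linarith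
  obtain ⟨r1, r2, r3, r4⟩ := root_lower hy1 hy'0 hlow
  have p4 : 820 * y ≤ y ^ 4 := by
    have e : y ^ 4 = y ^ 3 * y := by ring
    rw [e]
    refine mul_le_mul_of_nonneg_right ?_ hy0.le
    calc (820 : ℝ) ≤ y := by linarith
      _ = y ^ 1 := (pow_one y).symm
      _ ≤ y ^ 3 := pow_le_pow_right₀ hy1 (by norm_num)
  have hup : y' ^ 16 ≤ y ^ 16 + 2 * y ^ 4 := by
    rw [hy'16]
    have : 820 * Real.log y ≤ 820 * y := by linarith
    linarith
  have hdl1 : ∀ z : ℂ, ‖z‖ = 1 → 0 < dl b₁ d₁ z := fun z hz =>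
    Pool.Agent.Helper84.PD.dl_pos hM.core.pair hz.le
  have hdl' : ∀ z : ℂ, ‖z‖ = 1 → 0 < dl b' d' z := fun z hz =>
    Pool.Agent.Helper84.PD.dl_pos hc'.pair hz.le
  refine ⟨y', m', b', d', f', P', ⟨?_, ?_, ?_, ?_, ?_, ?_, ?_⟩, r4, hlow, hup, ?_, ?_⟩
  · rw [hexp]; exact hc'
  · intro z hz
    rw [hexp]
    have e1 := hM.wlow z hz
    have e2 := hw1 z hz
    have e3 : y ^ 50 * dl b' d' z ≤ y ^ 820 * dl b' d' z :=
      mul_le_mul_of_nonneg_right (pow_le_pow_right₀ hy1 (by norm_num)) (hdl' z hz).le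
    calc 1 ≤ X * dl b₁ d₁ z := e1
      _ ≤ X * (y ^ 820 * dl b' d' z) := mul_le_mul_of_nonneg_left (e2.trans e3) hX0.le
      _ = _ := by ring
  · intro z hz
    have e1 := hSt.Ysup z hz
    have e2 := hY₁ z hz
    have e3 := hY' z hz
    have e4 : y ^ 112 ≤ y ^ 128 := pow_le_pow_right₀ hy1 (by norm_num)
    have e5 : 1 ≤ y ^ 115 := one_le_pow₀ hy1
    rcases e3 with e3 | e3 <;> rcases e2 with e2 | e2 <;> linarith
  · intro z hz
    rw [hexp]; exact hV' z hz
  · intro z hz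
    have e1 := hSt.flog z hz
    have e2 := hf₁ z hz
    have e3 := hf' z hz
    have e4 : y ^ 130 ≤ y ^ 147 := pow_le_pow_right₀ hy1 (by norm_num)
    have e5 : 1 ≤ y ^ 147 := one_le_pow₀ hy1
    have e6 : |Real.log ‖f' z‖| ≤ |Real.log ‖f' z‖ - Real.log ‖f₁ z‖| +
        (|Real.log ‖f₁ z‖ - Real.log ‖f z‖| + |Real.log ‖f z‖|) := by
      calc |Real.log ‖f' z‖| = |(Real.log ‖f' z‖ - Real.log ‖f₁ z‖) +
            ((Real.log ‖f₁ z‖ - Real.log ‖f z‖) + Real.log ‖f z‖)| := by ring_nf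
        _ ≤ _ := (abs_add_le _ _).trans (add_le_add_right (abs_add_le _ _) _)
    linarith
  · exact hE'
  · have hcu := cont_xi l hM.core.pair hM.core.anf hM.core.fne
    have hcv := cont_xi l hc'.pair hc'.anf hc'.fne
    have he : 0 < 1 / y ^ 15 := by positivity
    have h1 := avg_sq_add (hcu.mono sphere_subset_closedBall) (hcv.mono sphere_subset_closedBall)
      hξ' he
    have h2 := hξ₁
    have h3 := hSt.xi2
    set A1 := Real.circleAverage (fun z => xi l b₁ d₁ f₁ z ^ 2) 0 1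
    have h4 : A1 ≤ y ^ 30 + y ^ 16 := by linarith
    have h5 : (1 + 1 / y ^ 15) * A1 ≤ (1 + 1 / y ^ 15) * (y ^ 30 + y ^ 16) :=
      mul_le_mul_of_nonneg_left h4 (by positivity)
    have h6 : (1 + 1 / y ^ 15) * (y ^ 30 + y ^ 16) = y ^ 30 + y ^ 16 + y ^ 15 + y := by
      field_simp
      ring
    have h7 : 1 + 1 / (1 / y ^ 15) = 1 + y ^ 15 := by rw [one_div_one_div]
    have h8 : y ^ 15 ≤ y ^ 16 := pow_le_pow_right₀ hy1 (by norm_num)
    have h9 : y ≤ y ^ 16 := by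
      calc y = y ^ 1 := (pow_one y).symm
        _ ≤ y ^ 16 := pow_le_pow_right₀ hy1 (by norm_num)
    have h10 : 1 ≤ y ^ 16 := one_le_pow₀ hy1
    have h11 : 5 * y ^ 16 ≤ y ^ 17 := by
      have e : y ^ 17 = y * y ^ 16 := by ring
      rw [e]
      exact mul_le_mul_of_nonneg_right (by linarith) (by positivity)
    rw [h7] at h1
    linarith
  · have hs0 : 0 < Real.sqrt (Real.log y) := Real.sqrt_pos.2 (by linarith)
    have hs1 : Real.sqrt (Real.log y) ≤ Real.log y := by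
      rw [Real.sqrt_le_left (by linarith)]
      nlinarith
    have hτ : tau b₁ d₁ ≤ tau b' d' := by
      unfold tau
      refine avg_mono ?_ ?_ (fun z hz => ?_)
      · exact ((cont_log_dl hM.core.pair).mono sphere_subset_closedBall).neg
      · exact ((cont_log_dl hc'.pair).mono sphere_subset_closedBall).neg
      · exact neg_le_neg (Real.log_le_log (hdl' z hz) (hw2 z hz))
    set s := Real.sqrt (Real.log y) with hs
    set D := Real.log X - y ^ 16 with hD
    have hD1 : y ^ 3 ≤ D := by rw [hD]; linarith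
    have e1 : y' ^ 16 - y ^ 16 = D + 820 * Real.log y := by rw [hy'16, hD]; ring
    have e2 : 820 * Real.log y * s ≤ D := by
      have e3 : 820 * Real.log y * s ≤ 820 * y * y := by
        refine mul_le_mul (by linarith) (by linarith) hs0.le (by positivity)
      have e4 : 820 * y * y ≤ y ^ 3 := by nlinarith [mul_nonneg (mul_nonneg hy0.le hy0.le) (by linarith : 0 ≤ y - 820)]
      linarith
    have e5 : 820 * Real.log y ≤ D / s := by rwa [le_div_iff₀ hs0]
    have e6 : (1 - (C + 1) / s) * (D + 820 * Real.log y) =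
        (1 - C / s) * D - D / s + 820 * Real.log y - (C + 1) / s * (820 * Real.log y) := by
      field_simp
      ring
    have e7 : 0 ≤ (C + 1) / s * (820 * Real.log y) := by positivity
    rw [e1, e6]
    linarith
  · have hXX : Real.exp (y ^ 16) * y ^ 720 ≤ X := by
      have e1 : Real.exp (y ^ 16 + y ^ 3) ≤ X := by
        rw [← Real.le_log_iff_exp_le hX0]; exact hXlo
      have e2 : y ^ 720 ≤ Real.exp (y ^ 3) := by
        have e3 : 720 * Real.log y ≤ y ^ 3 := by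
          have : y * 720 ≤ y * y ^ 2 := by
            refine mul_le_mul_of_nonneg_left ?_ hy0.le
            nlinarith
          nlinarith
        have e4 : Real.exp (720 * Real.log y) = y ^ 720 := by
          rw [show (720 : ℝ) * Real.log y = ((720 : ℕ) : ℝ) * Real.log y by norm_num,
            Real.exp_nat_mul, Real.exp_log hy0]
        rw [← e4]
        exact Real.exp_le_exp.2 e3
      calc Real.exp (y ^ 16) * y ^ 720 ≤ Real.exp (y ^ 16) * Real.exp (y ^ 3) :=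
            mul_le_mul_of_nonneg_left e2 (Real.exp_pos _).le
        _ = Real.exp (y ^ 16 + y ^ 3) := (Real.exp_add _ _).symm
        _ ≤ X := e1
    refine (Close.trans (by positivity) hXX hC₁ hC').mono ?_
    have e1 : y ^ 310 = y ^ 10 * y ^ 300 := by rw [← pow_add]
    have e2 : 5 ≤ y ^ 10 := by
      calc (5 : ℝ) ≤ y := by linarith
        _ = y ^ 1 := (pow_one y).symm
        _ ≤ y ^ 10 := pow_le_pow_right₀ hy1 (by norm_num)
    have e3 : 1 ≤ y ^ 300 := one_le_pow₀ hy1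
    rw [e1]
    nlinarith

end Pool.Agent.Helper81.QF
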