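import Mathlib

/-! Szego type recursion for pairs of polynomials: exact identity on the circle. -/

namespace Pool.Agent.Helper81.QF

open Complex Set Metric Polynomial

/-- `star m p (z) = z ^ m * conj (p (1 / conj z))`. -/
noncomputable def star (m : ℕ) (p : ℂ[X]) : ℂ[X] := (p.map (starRingEnd ℂ)).reflect m

lemma star_natDegree {m : ℕ} {p : ℂ[X]} (hp : p.natDegree ≤ m) : (star m p).natDegree ≤ m := by
  unfold star
  refine (Polynomial.natDegree_reflect_le).trans ?_
  exact max_le le_rfl ((Polynomial.natDegree_map_le).trans hp)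

lemma conj_eq_inv {z : ℂ} (hz : ‖z‖ = 1) : (starRingEnd ℂ) z = z⁻¹ := by
  rw [Complex.inv_def, Complex.normSq_eq_norm_sq, hz]; simp

lemma star_eval {m : ℕ} {p : ℂ[X]} (hp : p.natDegree ≤ m) {z : ℂ} (hz : ‖z‖ = 1) :
    (star m p).eval z = z ^ m * (starRingEnd ℂ) (p.eval z) := by
  have hz0 : z ≠ 0 := by intro h; rw [h, norm_zero] at hz; norm_num at hz
  have h1 : (p.map (starRingEnd ℂ)).natDegree ≤ m := (Polynomial.natDegree_map_le).trans hp
  let _ : Invertible (z⁻¹) := invertibleOfNonzero (inv_ne_zero hz0)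
  have h2 := Polynomial.eval₂_reflect_mul_pow (RingHom.id ℂ) (z⁻¹) m (p.map (starRingEnd ℂ)) h1
  have h3 : ⅟(z⁻¹) = z := by rw [invOf_eq_inv, inv_inv]
  rw [h3, ← conj_eq_inv hz, Polynomial.eval₂_id, Polynomial.eval₂_id] at h2
  have h4 : (p.map (starRingEnd ℂ)).eval ((starRingEnd ℂ) z) = (starRingEnd ℂ) (p.eval z) := by
    rw [Polynomial.eval_map, Polynomial.eval₂_hom]
  rw [h4] at h2
  have h5 : (starRingEnd ℂ) z ^ m * z ^ m = 1 := by
    rw [← mul_pow, conj_eq_inv hz, inv_mul_cancel₀ hz0, one_pow]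
  unfold star
  rw [← h2]
  linear_combination -(Polynomial.eval z (reflect m (p.map (starRingEnd ℂ)))) * h5

/-- The exact identity of a step on the unit circle. -/
lemma step_identity {m : ℕ} {b d g : ℂ[X]} (hb : b.natDegree ≤ m) (hd : d.natDegree ≤ m)
    {z : ℂ} (hz : ‖z‖ = 1) :
    ‖(d + g * star m b).eval z‖ ^ 2 - ‖(b + g * star m d).eval z‖ ^ 2 =
      (1 - ‖g.eval z‖ ^ 2) * (‖d.eval z‖ ^ 2 - ‖b.eval z‖ ^ 2) := by
  have hzm : Complex.normSq (z ^ m) = 1 := by
    rw [Complex.normSq_eq_norm_sq, norm_pow, hz, one_pow, one_pow]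
  simp only [eval_add, eval_mul, star_eval hb hz, star_eval hd hz]
  simp only [← Complex.normSq_eq_norm_sq]
  set B := b.eval z
  set D := d.eval z
  set G := g.eval z
  set Z := z ^ m
  have e1 : ∀ x y : ℂ, Complex.normSq (x + y) =
      Complex.normSq x + Complex.normSq y + 2 * (x * (starRingEnd ℂ) y).re := Complex.normSq_add
  rw [e1, e1]
  simp only [map_mul, Complex.normSq_conj, hzm, Complex.conj_conj]
  have h : D * ((starRingEnd ℂ) G * ((starRingEnd ℂ) Z * B)) =
      B * ((starRingEnd ℂ) G * ((starRingEnd ℂ) Z * D)) := by ring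
  rw [h]; ring

/-- A pair `(b, d)` with `|b| < |d|` on the closed disc. -/
structure Pair (m : ℕ) (b d : ℂ[X]) : Prop where
  db : b.natDegree ≤ m
  dd : d.natDegree ≤ m
  d0 : d.eval 0 = 1
  ne : ∀ z : ℂ, ‖z‖ ≤ 1 → d.eval z ≠ 0
  lt : ∀ z : ℂ, ‖z‖ = 1 → ‖b.eval z‖ < ‖d.eval z‖

/-- Maximum principle for a quotient of polynomials. -/
lemma max_quot {p d : ℂ[X]} (hd : ∀ z : ℂ, ‖z‖ ≤ 1 → d.eval z ≠ 0)
    (h : ∀ z : ℂ, ‖z‖ = 1 → ‖p.eval z‖ < ‖d.eval z‖) (z : ℂ) (hz : ‖z‖ ≤ 1) :
    ‖p.eval z‖ < ‖d.eval z‖ := by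
  have hcont : ContinuousOn (fun z => p.eval z / d.eval z) (closedBall 0 1) :=
    (p.continuous.continuousOn).div (d.continuous.continuousOn)
      (fun z hz => hd z (by simpa using hz))
  have hcompact : IsCompact (sphere (0 : ℂ) 1) := isCompact_sphere 0 1
  have hne : (sphere (0 : ℂ) 1).Nonempty := ⟨1, by simp⟩
  obtain ⟨z0, hz0, hmax⟩ := hcompact.exists_isMaxOn hne
    ((hcont.mono sphere_subset_closedBall).norm)
  have hz0' : ‖z0‖ = 1 := by simpa using hz0
  set c := ‖p.eval z0 / d.eval z0‖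
  have hc : c < 1 := by
    have h2 : 0 < ‖d.eval z0‖ := norm_pos_iff.2 (hd z0 hz0'.le)
    change ‖p.eval z0 / d.eval z0‖ < 1
    rw [norm_div, div_lt_one h2]; exact h z0 hz0'
  have hle : ‖p.eval z / d.eval z‖ ≤ c := by
    have hdiff : DiffContOnCl ℂ (fun z => p.eval z / d.eval z) (ball 0 1) := by
      refine ⟨?_, ?_⟩
      · intro w hw
        have : ‖w‖ ≤ 1 := by
          have : ‖w‖ < 1 := by simpa using hw
          exact this.le
        exact (p.differentiableAt.div d.differentiableAt (hd w this)).differentiableWithinAt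
      · rw [closure_ball (0 : ℂ) one_ne_zero]; exact hcont
    refine Complex.norm_le_of_forall_mem_frontier_norm_le isBounded_ball hdiff ?_ ?_
    · intro w hw
      rw [frontier_ball (0 : ℂ) one_ne_zero] at hw
      exact hmax hw
    · rw [closure_ball (0 : ℂ) one_ne_zero]; simpa using hz
  have h2 : 0 < ‖d.eval z‖ := norm_pos_iff.2 (hd z hz)
  rw [norm_div] at hle
  have := lt_of_le_of_lt hle hc
  rwa [div_lt_one h2] at this

/-- One step. -/
theorem Pair.step {m k : ℕ} {b d g : ℂ[X]} (h : Pair m b d) (hg : g.natDegree ≤ k)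
    (hg0 : g.eval 0 = 0) (hg1 : ∀ z : ℂ, ‖z‖ = 1 → ‖g.eval z‖ < 1) :
    Pair (m + k) (b + g * star m d) (d + g * star m b) := by
  have hlt : ∀ z : ℂ, ‖z‖ = 1 →
      ‖(b + g * star m d).eval z‖ < ‖(d + g * star m b).eval z‖ := by
    intro z hz
    have h1 := step_identity (g := g) h.db h.dd hz
    have h2 : 0 < (1 - ‖g.eval z‖ ^ 2) * (‖d.eval z‖ ^ 2 - ‖b.eval z‖ ^ 2) := by
      have := hg1 z hz
      have := h.lt z hz
      have := norm_nonneg (g.eval z)
      have := norm_nonneg (b.eval z)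
      exact mul_pos (by nlinarith) (by nlinarith)
    exact lt_of_pow_lt_pow_left₀ 2 (norm_nonneg _) (by linarith)
  have hgb : ∀ z : ℂ, ‖z‖ = 1 → ‖(g * star m b).eval z‖ < ‖d.eval z‖ := by
    intro z hz
    rw [eval_mul, star_eval h.db hz, norm_mul, norm_mul, norm_pow, hz, one_pow, one_mul,
      Complex.norm_conj]
    have h1 := hg1 z hz
    have h2 := h.lt z hz
    have := norm_nonneg (g.eval z)
    have := norm_nonneg (b.eval z)
    nlinarith
  refine ⟨?_, ?_, ?_, ?_, hlt⟩
  · refine (natDegree_add_le _ _).trans (max_le (h.db.trans (by omega)) ?_)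
    refine natDegree_mul_le.trans ?_
    have := star_natDegree h.dd
    omega
  · refine (natDegree_add_le _ _).trans (max_le (h.dd.trans (by omega)) ?_)
    refine natDegree_mul_le.trans ?_
    have := star_natDegree h.db
    omega
  · rw [eval_add, eval_mul, hg0, zero_mul, add_zero, h.d0]
  · intro z hz hzero
    have h1 := max_quot h.ne hgb z hz
    rw [eval_add] at hzero
    have h2 : (g * star m b).eval z = - d.eval z := by linear_combination hzero
    rw [h2, norm_neg] at h1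
    exact lt_irrefl _ h1

lemma Pair.lt_disc {m : ℕ} {b d : ℂ[X]} (h : Pair m b d) {z : ℂ} (hz : ‖z‖ ≤ 1) :
    ‖b.eval z‖ < ‖d.eval z‖ := max_quot h.ne h.lt z hz

lemma Pair.one : Pair 0 0 1 := by
  refine ⟨by simp, by simp, by simp, fun z _ => by simp, fun z _ => by simp⟩

/-- The mean of `log |d|` vanishes. -/
theorem Pair.mean_log {m : ℕ} {b d : ℂ[X]} (h : Pair m b d) :
    Real.circleAverage (fun z => Real.log ‖d.eval z‖) 0 1 = 0 := by
  have h1 := AnalyticOnNhd.circleAverage_log_norm_of_ne_zero (R := 1) (c := 0)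
    (g := fun z => d.eval z) (fun z _ => (AnalyticOnNhd.eval_polynomial d) z trivial)
    (fun u hu => h.ne u (by simpa using hu))
  rw [h1, h.d0]; simp

end Pool.Agent.Helper81.QF
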