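import Mathlib

/-! Laurent truncation of a function analytic in a thin annulus around the unit circle. -/

namespace Pool.Agent.Helper81.QF

open Complex MeasureTheory Set Metric

/-- Laurent coefficient. -/
noncomputable def lc (F : ℂ → ℂ) (n : ℤ) : ℂ :=
  (2 * Real.pi * I)⁻¹ • ∮ z in C(0, 1), z ^ (-n - 1) * F z

lemma annulus_nhds {R : ℝ} {z : ℂ} (h1 : R⁻¹ < ‖z‖) (h2 : ‖z‖ < R) :
    {z : ℂ | R⁻¹ < ‖z‖ ∧ ‖z‖ < R} ∈ nhds z := by
  have : IsOpen {z : ℂ | R⁻¹ < ‖z‖ ∧ ‖z‖ < R} :=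
    (isOpen_lt continuous_const continuous_norm).inter (isOpen_lt continuous_norm continuous_const)
  exact this.mem_nhds ⟨h1, h2⟩

/-- The integral does not depend on the radius. -/
lemma integral_radius {F : ℂ → ℂ} {R : ℝ} (hR : 1 < R)
    (hF : DifferentiableOn ℂ F {z | R⁻¹ < ‖z‖ ∧ ‖z‖ < R}) (n : ℤ) {r s : ℝ}
    (hr : R⁻¹ < r) (hrs : r ≤ s) (hs : s < R) :
    (∮ z in C(0, s), z ^ (-n - 1) * F z) = ∮ z in C(0, r), z ^ (-n - 1) * F z := by
  have hR0 : 0 < R⁻¹ := inv_pos.2 (by linarith)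
  have key : ∀ z : ℂ, R⁻¹ < ‖z‖ → ‖z‖ < R → DifferentiableAt ℂ (fun z : ℂ => z ^ (-n - 1) * F z) z := by
    intro z h1 h2
    have hz : z ≠ 0 := by
      intro h; rw [h, norm_zero] at h1; linarith
    exact (differentiableAt_zpow.2 (Or.inl hz)).mul (hF.differentiableAt (annulus_nhds h1 h2))
  refine circleIntegral_eq_of_differentiable_on_annulus_off_countable (lt_trans hR0 hr) hrs
    countable_empty ?_ ?_
  · intro z hz
    have h1 : r ≤ ‖z‖ := by simpa using hz.2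
    have h2 : ‖z‖ ≤ s := by simpa using hz.1
    exact (key z (by linarith) (by linarith)).continuousAt.continuousWithinAt
  · intro z hz
    have h1 : r < ‖z‖ := by simpa using hz.1.2
    have h2 : ‖z‖ < s := by simpa using hz.1.1
    exact key z (by linarith) (by linarith)

lemma lc_radius {F : ℂ → ℂ} {R : ℝ} (hR : 1 < R)
    (hF : DifferentiableOn ℂ F {z | R⁻¹ < ‖z‖ ∧ ‖z‖ < R}) (n : ℤ) {s : ℝ}
    (hs1 : R⁻¹ < s) (hs2 : s < R) :
    lc F n = (2 * Real.pi * I)⁻¹ • ∮ z in C(0, s), z ^ (-n - 1) * F z := by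
  unfold lc
  congr 1
  have hR1 : R⁻¹ < 1 := inv_lt_one_of_one_lt₀ hR
  rcases le_total s 1 with h | h
  · exact integral_radius hR hF n hs1 h hR
  · exact (integral_radius hR hF n hR1 h hs2).symm

lemma lc_bound_aux {F : ℂ → ℂ} {R M : ℝ} (hR : 1 < R)
    (hF : DifferentiableOn ℂ F {z | R⁻¹ < ‖z‖ ∧ ‖z‖ < R})
    (hM : ∀ z : ℂ, R⁻¹ < ‖z‖ → ‖z‖ < R → ‖F z‖ ≤ M) (n : ℤ) {s : ℝ}
    (hs1 : R⁻¹ < s) (hs2 : s < R) : ‖lc F n‖ ≤ M * s ^ (-n) := by
  have hR0 : 0 < R⁻¹ := inv_pos.2 (by linarith)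
  have hs0 : 0 < s := lt_trans hR0 hs1
  rw [lc_radius hR hF n hs1 hs2]
  have := circleIntegral.norm_two_pi_i_inv_smul_integral_le_of_norm_le_const (c := 0) (R := s)
    (f := fun z : ℂ => z ^ (-n - 1) * F z) (C := s ^ (-n - 1) * M) hs0.le (by
      intro z hz
      have hz' : ‖z‖ = s := by simpa using hz
      rw [norm_mul, norm_zpow, hz']
      exact mul_le_mul_of_nonneg_left (hM z (by rw [hz']; exact hs1) (by rw [hz']; exact hs2))
        (zpow_pos hs0 _).le)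
  refine this.trans (le_of_eq ?_)
  have : s ^ (-n) = s ^ (-n - 1) * s := by
    rw [← zpow_add_one₀ hs0.ne']; congr 1; ring
  rw [this]; ring

lemma lc_bound_pos {F : ℂ → ℂ} {R M : ℝ} (hR : 1 < R)
    (hF : DifferentiableOn ℂ F {z | R⁻¹ < ‖z‖ ∧ ‖z‖ < R})
    (hM : ∀ z : ℂ, R⁻¹ < ‖z‖ → ‖z‖ < R → ‖F z‖ ≤ M) (n : ℕ) :
    ‖lc F n‖ ≤ M * R⁻¹ ^ n := by
  have hR0 : 0 < R := by linarith
  have hcont : ContinuousAt (fun s : ℝ => M * s ^ (-(n : ℤ))) R :=
    continuousAt_const.mul (continuousAt_zpow₀ _ _ (Or.inl hR0.ne'))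
  have h1 : Filter.Tendsto (fun s : ℝ => M * s ^ (-(n : ℤ))) (nhdsWithin R (Iio R))
      (nhds (M * R ^ (-(n : ℤ)))) := hcont.tendsto.mono_left nhdsWithin_le_nhds
  have h2 : ∀ᶠ s in nhdsWithin R (Iio R), ‖lc F n‖ ≤ M * s ^ (-(n : ℤ)) := by
    filter_upwards [Ioo_mem_nhdsLT hR] with s hs
    have hR1 : R⁻¹ < 1 := inv_lt_one_of_one_lt₀ hR
    exact lc_bound_aux hR hF hM n (lt_trans hR1 hs.1) hs.2
  have := ge_of_tendsto h1 h2
  rwa [zpow_neg, zpow_natCast, ← inv_pow] at this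

lemma lc_bound_neg {F : ℂ → ℂ} {R M : ℝ} (hR : 1 < R)
    (hF : DifferentiableOn ℂ F {z | R⁻¹ < ‖z‖ ∧ ‖z‖ < R})
    (hM : ∀ z : ℂ, R⁻¹ < ‖z‖ → ‖z‖ < R → ‖F z‖ ≤ M) (n : ℕ) :
    ‖lc F (-(n : ℤ))‖ ≤ M * R⁻¹ ^ n := by
  have hR0 : 0 < R⁻¹ := inv_pos.2 (by linarith)
  have hcont : ContinuousAt (fun s : ℝ => M * s ^ n) R⁻¹ := by fun_prop
  have h1 : Filter.Tendsto (fun s : ℝ => M * s ^ n) (nhdsWithin R⁻¹ (Ioi R⁻¹))
      (nhds (M * R⁻¹ ^ n)) := hcont.tendsto.mono_left nhdsWithin_le_nhds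
  have hR1 : R⁻¹ < 1 := inv_lt_one_of_one_lt₀ hR
  have h2 : ∀ᶠ s in nhdsWithin R⁻¹ (Ioi R⁻¹), ‖lc F (-(n : ℤ))‖ ≤ M * s ^ n := by
    filter_upwards [Ioo_mem_nhdsGT hR1] with s hs
    have := lc_bound_aux hR hF hM (-(n : ℤ)) hs.1 (lt_trans hs.2 hR)
    rwa [neg_neg, zpow_natCast] at this
  exact ge_of_tendsto h1 h2

/-- The function on the additive circle of length `2 pi`. -/
noncomputable def gF (F : ℂ → ℂ) (hc : ContinuousOn F (sphere 0 1)) :
    C(AddCircle (2 * Real.pi), ℂ) where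
  toFun x := F (AddCircle.toCircle x)
  continuous_toFun := by
    refine hc.comp_continuous (by fun_prop) (fun x => ?_)
    rw [mem_sphere_zero_iff_norm]
    exact Circle.norm_coe _

lemma fact_two_pi : Fact (0 < 2 * Real.pi) := ⟨Real.two_pi_pos⟩

attribute [local instance] fact_two_pi

lemma toCircle_coe (x : ℝ) :
    ((AddCircle.toCircle (x : AddCircle (2 * Real.pi)) : Circle) : ℂ) = circleMap 0 1 x := by
  rw [AddCircle.toCircle_apply_mk, Circle.coe_exp, circleMap]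
  have : 2 * Real.pi / (2 * Real.pi) * x = x := by
    field_simp
  rw [this]; simp

lemma fourier_coe (n : ℤ) (x : ℝ) :
    (fourier n (x : AddCircle (2 * Real.pi)) : ℂ) = (circleMap 0 1 x) ^ n := by
  rw [fourier_coe_apply, circleMap]
  simp only [zero_add, ofReal_one, one_mul]
  rw [← Complex.exp_int_mul]
  congr 1
  have : (Real.pi : ℂ) ≠ 0 := by exact_mod_cast Real.pi_ne_zero
  push_cast
  field_simp

lemma fourierCoeff_gF (F : ℂ → ℂ) (hc : ContinuousOn F (sphere 0 1)) (n : ℤ) :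
    fourierCoeff (gF F hc) n = lc F n := by
  rw [fourierCoeff_eq_intervalIntegral _ n 0, lc, circleIntegral, zero_add]
  have hpi : (Real.pi : ℂ) ≠ 0 := by exact_mod_cast Real.pi_ne_zero
  have h : ∀ x : ℝ, deriv (circleMap 0 1) x • ((circleMap 0 1 x) ^ (-n - 1) * F (circleMap 0 1 x))
      = I • (@fourier (2 * Real.pi) (-n) x • (gF F hc) x) := by
    intro x
    have hne : circleMap 0 1 x ≠ 0 := circleMap_ne_center one_ne_zero
    rw [fourier_coe]
    simp only [deriv_circleMap, gF, ContinuousMap.coe_mk, smul_eq_mul, toCircle_coe]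
    have : (circleMap 0 1 x : ℂ) ^ (-n) = (circleMap 0 1 x) ^ (-n - 1) * circleMap 0 1 x := by
      rw [← zpow_add_one₀ hne]; congr 1; ring
    rw [this]; ring
  simp only [h]
  rw [intervalIntegral.integral_smul]
  simp only [smul_eq_mul, Complex.real_smul]
  push_cast
  field_simp

lemma hasSum_lc {F : ℂ → ℂ} {R M : ℝ} (hR : 1 < R)
    (hF : DifferentiableOn ℂ F {z | R⁻¹ < ‖z‖ ∧ ‖z‖ < R})
    (hM : ∀ z : ℂ, R⁻¹ < ‖z‖ → ‖z‖ < R → ‖F z‖ ≤ M) {z : ℂ} (hz : ‖z‖ = 1) :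
    HasSum (fun n : ℤ => lc F n * z ^ n) (F z) := by
  have hR1 : R⁻¹ < 1 := inv_lt_one_of_one_lt₀ hR
  have hR0 : 0 < R⁻¹ := inv_pos.2 (by linarith)
  have hc : ContinuousOn F (sphere 0 1) := by
    intro w hw
    have hw' : ‖w‖ = 1 := by simpa using hw
    exact (hF.differentiableAt (annulus_nhds (by rw [hw']; exact hR1)
      (by rw [hw']; exact hR))).continuousAt.continuousWithinAt
  have hgeo : Summable (fun n : ℕ => M * R⁻¹ ^ n) :=
    (summable_geometric_of_lt_one hR0.le hR1).mul_left _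
  have hs : Summable (fun n : ℤ => lc F n) := by
    refine Summable.of_nat_of_neg_add_one ?_ ?_
    · exact Summable.of_norm_bounded hgeo (fun n => lc_bound_pos hR hF hM n)
    · refine Summable.of_norm_bounded (g := fun n : ℕ => M * R⁻¹ ^ (n + 1)) ?_ (fun n => ?_)
      · exact (summable_nat_add_iff (f := fun n : ℕ => M * R⁻¹ ^ n) 1).2 hgeo
      · have := lc_bound_neg hR hF hM (n + 1)
        push_cast at this
        exact this
  have hs' : Summable (fourierCoeff (gF F hc)) := by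
    have : fourierCoeff (gF F hc) = fun n => lc F n := by
      funext n; exact fourierCoeff_gF F hc n
    rw [this]; exact hs
  obtain ⟨x, hx⟩ : ∃ x : ℝ, circleMap 0 1 x = z := by
    have : z ∈ sphere (0 : ℂ) 1 := by simpa using hz
    have h2 := range_circleMap (0 : ℂ) 1
    rw [abs_one] at h2
    rw [← h2] at this
    exact this
  have := has_pointwise_sum_fourier_series_of_summable hs' (x : AddCircle (2 * Real.pi))
  have h3 : (gF F hc) (x : AddCircle (2 * Real.pi)) = F z := by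
    change F _ = _
    rw [toCircle_coe, hx]
  rw [h3] at this
  have h4 : (fun n : ℤ => fourierCoeff (gF F hc) n •
      (fourier n (x : AddCircle (2 * Real.pi)) : ℂ)) = fun n : ℤ => lc F n * z ^ n := by
    funext n
    rw [fourierCoeff_gF, fourier_coe, hx, smul_eq_mul]
  rw [h4] at this
  exact this

/-- The truncated Laurent polynomial times `z ^ m`. -/
noncomputable def trunc (F : ℂ → ℂ) (m : ℕ) : Polynomial ℂ :=
  ∑ k ∈ Finset.range (2 * m + 1), Polynomial.monomial k (lc F ((k : ℤ) - m))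

lemma trunc_natDegree (F : ℂ → ℂ) (m : ℕ) : (trunc F m).natDegree ≤ 2 * m := by
  refine Polynomial.natDegree_sum_le_of_forall_le _ _ (fun k hk => ?_)
  have := Finset.mem_range.1 hk
  exact (Polynomial.natDegree_monomial_le _).trans (by omega)

lemma trunc_eval (F : ℂ → ℂ) (m : ℕ) (z : ℂ) :
    (trunc F m).eval z = ∑ k ∈ Finset.range (2 * m + 1), lc F ((k : ℤ) - m) * z ^ k := by
  simp [trunc, Polynomial.eval_finsetSum]

lemma _root_.HasSum.congr_fun' {f g : ℕ → ℝ} {a : ℝ} (h : HasSum f a) (hfg : ∀ n, g n = f n) :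
    HasSum g a := by
  have : g = f := funext hfg
  rw [this]; exact h

theorem trunc_error {F : ℂ → ℂ} {R M : ℝ} (hR : 1 < R)
    (hF : DifferentiableOn ℂ F {z | R⁻¹ < ‖z‖ ∧ ‖z‖ < R})
    (hM : ∀ z : ℂ, R⁻¹ < ‖z‖ → ‖z‖ < R → ‖F z‖ ≤ M) (m : ℕ) {z : ℂ} (hz : ‖z‖ = 1) :
    ‖z ^ m * F z - (trunc F m).eval z‖ ≤ 2 * M / ((R - 1) * R ^ m) := by
  have hR1 : R⁻¹ < 1 := inv_lt_one_of_one_lt₀ hR
  have hR0 : 0 < R⁻¹ := inv_pos.2 (by linarith)
  have hz0 : z ≠ 0 := by intro h; rw [h, norm_zero] at hz; norm_num at hz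
  have hM0 : 0 ≤ M := le_trans (norm_nonneg _) (hM 1 (by simpa using hR1) (by simpa using hR))
  have h1 := hasSum_lc hR hF hM hz
  -- the finite part
  have h2 : HasSum (fun n : ℤ => if n ∈ Finset.Icc (-(m : ℤ)) m then lc F n * z ^ n else 0)
      (∑ n ∈ Finset.Icc (-(m : ℤ)) m, lc F n * z ^ n) := by
    have h0 : HasSum (fun n : ℤ => if n ∈ Finset.Icc (-(m : ℤ)) m then lc F n * z ^ n else 0)
        (∑ n ∈ Finset.Icc (-(m : ℤ)) m,
          (if n ∈ Finset.Icc (-(m : ℤ)) m then lc F n * z ^ n else 0)) :=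
      hasSum_sum_of_ne_finset_zero (fun n hn => by simp only [hn, if_false])
    rw [Finset.sum_congr rfl (fun n hn => by rw [if_pos hn] :
      ∀ n ∈ Finset.Icc (-(m : ℤ)) m,
        (if n ∈ Finset.Icc (-(m : ℤ)) m then lc F n * z ^ n else 0) = lc F n * z ^ n)] at h0
    exact h0
  have h3 := h1.sub h2
  -- the bound
  have hb : HasSum (fun n : ℤ => if n ∈ Finset.Icc (-(m : ℤ)) m then 0 else M * R⁻¹ ^ n.natAbs)
      (M * R⁻¹ ^ (m + 1) * (1 - R⁻¹)⁻¹ + M * R⁻¹ ^ (m + 1) * (1 - R⁻¹)⁻¹) := by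
    have hg := (hasSum_geometric_of_lt_one hR0.le hR1).mul_left (M * R⁻¹ ^ (m + 1))
    refine HasSum.of_nat_of_neg_add_one ?_ ?_
    · rw [← hasSum_nat_add_iff' (m + 1)]
      have : ∑ i ∈ Finset.range (m + 1), (if (i : ℤ) ∈ Finset.Icc (-(m : ℤ)) m then 0
          else M * R⁻¹ ^ (i : ℤ).natAbs) = 0 := by
        refine Finset.sum_eq_zero (fun i hi => ?_)
        have := Finset.mem_range.1 hi
        rw [if_pos (Finset.mem_Icc.2 ⟨by omega, by omega⟩)]
      rw [this, sub_zero]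
      refine hg.congr_fun' (fun n => ?_)
      rw [if_neg (by rw [Finset.mem_Icc]; push_cast; omega)]
      rw [Int.natAbs_natCast, mul_assoc, ← pow_add]
      congr 2; ring
    · rw [← hasSum_nat_add_iff' m]
      have : ∑ i ∈ Finset.range m, (if (-((i : ℤ) + 1)) ∈ Finset.Icc (-(m : ℤ)) m then 0
          else M * R⁻¹ ^ (-((i : ℤ) + 1)).natAbs) = 0 := by
        refine Finset.sum_eq_zero (fun i hi => ?_)
        have := Finset.mem_range.1 hi
        rw [if_pos (Finset.mem_Icc.2 ⟨by omega, by omega⟩)]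
      rw [this, sub_zero]
      refine hg.congr_fun' (fun n => ?_)
      rw [if_neg (by rw [Finset.mem_Icc]; push_cast; omega)]
      rw [mul_assoc, ← pow_add]
      congr 2
      push_cast
      omega
  have h4 : ‖F z - ∑ n ∈ Finset.Icc (-(m : ℤ)) m, lc F n * z ^ n‖ ≤
      M * R⁻¹ ^ (m + 1) * (1 - R⁻¹)⁻¹ + M * R⁻¹ ^ (m + 1) * (1 - R⁻¹)⁻¹ := by
    rw [← h3.tsum_eq, ← hb.tsum_eq]
    refine tsum_of_norm_bounded hb (fun n => ?_) |>.trans (le_of_eq hb.tsum_eq.symm)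
    by_cases hn : n ∈ Finset.Icc (-(m : ℤ)) m
    · simp only [hn, if_true, sub_self, norm_zero, le_refl]
    · simp only [hn, if_false, sub_zero]
      rw [norm_mul, norm_zpow, hz, one_zpow, mul_one]
      rcases le_total 0 n with h0 | h0
      · obtain ⟨k, rfl⟩ := Int.eq_ofNat_of_zero_le h0
        simpa using lc_bound_pos hR hF hM k
      · obtain ⟨k, hk⟩ := Int.eq_ofNat_of_zero_le (neg_nonneg.2 h0)
        have : n = -(k : ℤ) := by omega
        subst this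
        simpa using lc_bound_neg hR hF hM k
  have h5 : z ^ m * F z - (trunc F m).eval z =
      z ^ m * (F z - ∑ n ∈ Finset.Icc (-(m : ℤ)) m, lc F n * z ^ n) := by
    rw [mul_sub, trunc_eval, Finset.mul_sum]
    congr 1
    refine (Finset.sum_bij (fun (k : ℕ) (_ : k ∈ Finset.range (2 * m + 1)) => (k : ℤ) - m)
      ?_ ?_ ?_ ?_)
    · intro k hk
      have := Finset.mem_range.1 hk
      exact Finset.mem_Icc.2 ⟨by omega, by omega⟩
    · intro a _ b _ hab
      have : (a : ℤ) = b := by linarith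
      exact_mod_cast this
    · intro n hn
      have := Finset.mem_Icc.1 hn
      refine ⟨(n + m).toNat, Finset.mem_range.2 (by omega), by omega⟩
    · intro k hk
      have h : (z : ℂ) ^ ((k : ℤ) - m) * z ^ m = z ^ k := by
        rw [← zpow_natCast z m, ← zpow_natCast z k, ← zpow_add₀ hz0]
        congr 1; ring
      rw [← h]; ring
  rw [h5, norm_mul, norm_pow, hz, one_pow, one_mul]
  refine h4.trans (le_of_eq ?_)
  have hRne : R ≠ 0 := by linarith
  have hR1ne : R - 1 ≠ 0 := by linarith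
  rw [inv_pow]
  have : (1 - R⁻¹) = (R - 1) / R := by field_simp
  rw [this, inv_div, pow_succ]
  field_simp
  ring

end Pool.Agent.Helper81.QF
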